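import Mathlib
import Pool.Agent.U37.Sch.F

/-!
# The maximal ball partial sum operator along dispersive evolutions

Let `ε > 0` and let `φ` be a measurable function with `φ(b) - φ(a) ≥ c a ^ ε (b - a)` for
`1 ≤ a ≤ b`, for instance `φ(r) = r ^ (1 + ε)`; for `ε = 1` this is the free Schrödinger evolution.
Let `0 ≤ σ < ε / 2` and let `f` be in the Sobolev space `H ^ (-σ)(ℝⁿ)` (for `σ = 0` this is
`L²(ℝⁿ)`), let `G` be the Fourier transform of `f` and `u(t)` the tempered distribution with the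
Fourier transform `exp(2πi t φ(|ξ|)) G(ξ)`. The ball partial sums `S_R u(t)` are functions also if
`u(t)` is not.

(1) `sup_R |S_R u(t)(x)|` is square integrable over `|t| ≤ T`, `|x - x₀| ≤ ρ`, and its norm is at
most a constant times the norm of `f` in `H ^ (-σ)`.

(2) For almost every `t` the ball partial sums `S_R u(t)(x)` converge for almost every `x`.

(3) If `f` is in `L²`, then the limit is `u(t)(x)`.

Proof. By a lemma of Gallagher's type in the variable `φ(|ξ|)` and the local `L²` estimate for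
functions with Fourier transform in a thin shell (`Pool.Agent.Helper93.Sph`), the part of `u` with
frequencies in a shell beyond the radius `2 ^ J` gains the factor `2 ^ (-J ε)` in the mean square
over `[-T, T] × B(x₀, ρ)`; for shells of width `w < 1` there is the factor `w` for each `t`.
Interpolation between both and dyadic chaining in `R` give the square of the oscillation of
`S_R u(t)(x)` over `2 ^ J ≤ R ≤ 2 ^ (J + 1)` a mean of `O(2 ^ (-J η))` times the square of the norm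
of this part of `f`, for some `η > 2 σ`; the sum over `J` converges.
-/

set_option autoImplicit false

open MeasureTheory Metric Filter Topology FourierTransform
open scoped ENNReal NNReal RealInnerProductSpace

namespace Pool.Agent.Results.MP_ee701d_an.SchrodingerEvolutions

/-- Euclidean space -/
abbrev E (n : ℕ) := EuclideanSpace ℝ (Fin n)

/-- the ball partial sum `S_R f(x)` of the function `f` with Fourier transform `G` -/
noncomputable def S {n : ℕ} (G : E n → ℂ) (R : ℝ) (x : E n) : ℂ :=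
  ∫ ξ in closedBall (0 : E n) R, Complex.exp (2 * Real.pi * Complex.I * ((⟪x, ξ⟫ : ℝ) : ℂ)) * G ξ

/-- the Fourier transform of `u(t) = exp(2πi t φ(|D|)) f`, where `G` is that of `f` -/
noncomputable def evolved {n : ℕ} (φ : ℝ → ℝ) (t : ℝ) (G : E n → ℂ) : E n → ℂ :=
  fun ξ => Complex.exp (2 * Real.pi * Complex.I * ((t * φ ‖ξ‖ : ℝ) : ℂ)) * G ξ

/-- the Fourier transform of `(1 + |D|) ^ (-σ) f`; it is square integrable if and only if `f` is
in the Sobolev space `H ^ (-σ)` -/
noncomputable def weighted {n : ℕ} (σ : ℝ) (G : E n → ℂ) : E n → ℂ :=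
  fun ξ => (((1 + ‖ξ‖) ^ (-σ) : ℝ) : ℂ) * G ξ

/-- the growth condition: `φ(b) - φ(a) ≥ c a ^ ε (b - a)` for `1 ≤ a ≤ b` -/
def Growth (c ε : ℝ) (φ : ℝ → ℝ) : Prop :=
  ∀ a b : ℝ, 1 ≤ a → a ≤ b → c * a ^ ε * (b - a) ≤ φ b - φ a

/-- powers satisfy the growth condition -/
theorem growth_power {ε : ℝ} (hε : 0 < ε) : Growth (1 + ε) ε (fun r => r ^ (1 + ε)) := by
  intro a b ha hab
  have ha0 : 0 < a := by linarith
  have h1 := one_add_mul_self_le_rpow_one_add (s := (b - a) / a)
    (by have : 0 ≤ (b - a) / a := div_nonneg (by linarith) ha0.le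
        linarith) (by linarith : 1 ≤ 1 + ε)
  have h2 : 1 + (b - a) / a = b / a := by field_simp; ring
  rw [h2, Real.div_rpow (by linarith) ha0.le] at h1
  have h3 : 0 < a ^ (1 + ε) := by positivity
  rw [le_div_iff₀ h3] at h1
  have h4 : a ^ (1 + ε) = a * a ^ ε := by rw [Real.rpow_add ha0, Real.rpow_one]
  have h5 : (1 + (1 + ε) * ((b - a) / a)) * a ^ (1 + ε) =
      a ^ (1 + ε) + (1 + ε) * a ^ ε * (b - a) := by
    rw [h4]; field_simp
  rw [h5] at h1
  show (1 + ε) * a ^ ε * (b - a) ≤ b ^ (1 + ε) - a ^ (1 + ε)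
  linarith

/-- the maximal inequality with the constant `C`: for every ball `B(x₀, ρ)`, the maximal function
`sup_R |S_R u(t)(x)|` of the ball partial sums has mean square at most `C` times the square of the
norm of `f` in `H ^ (-σ)` -/
def MaximalBound {n : ℕ} (φ : ℝ → ℝ) (σ T ρ : ℝ) (C : ℝ≥0) (G : E n → ℂ) : Prop :=
  ∀ x₀ : E n, ∫⁻ t in Set.Icc (-T) T, ∫⁻ x in closedBall x₀ ρ,
    (⨆ R : ℝ, ‖S (evolved φ t G) R x‖ₑ) ^ 2 ≤ C * ∫⁻ ξ, ‖weighted σ G ξ‖ₑ ^ 2

/-- the ball partial sums of the function with Fourier transform `F` converge almost everywhere -/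
def Converges {n : ℕ} (F : E n → ℂ) : Prop :=
  ∀ᵐ x : E n, ∃ L : ℂ, Tendsto (fun R : ℝ => S F R x) atTop (𝓝 L)

/-- `u` is the square integrable function with Fourier transform `F`: the limit of the ball partial
sums in `L²(ℝⁿ)` -/
def IsInverse {n : ℕ} (F u : E n → ℂ) : Prop :=
  MemLp u 2 volume ∧ Tendsto (fun R : ℝ => ∫⁻ x, ‖S F R x - u x‖ₑ ^ 2) atTop (𝓝 0)

/-- the ball partial sums of the square integrable function with Fourier transform `F` converge
to this function almost everywhere -/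
def ConvergesToInverse {n : ℕ} (F : E n → ℂ) : Prop :=
  ∃ u : E n → ℂ, IsInverse F u ∧ ∀ᵐ x : E n, Tendsto (fun R : ℝ => S F R x) atTop (𝓝 (u x))

theorem result {n : ℕ} (hn : 1 ≤ n) {c ε σ : ℝ} (hc : 0 < c) (hε : 0 < ε) (hσ : 0 ≤ σ)
    (hσε : 2 * σ < ε) {T ρ : ℝ} (hT : 0 < T) (hρ : 0 < ρ) :
    ∃ C : ℝ≥0, ∀ φ : ℝ → ℝ, Measurable φ → Growth c ε φ →
      ∀ G : E n → ℂ, MemLp (weighted σ G) 2 volume →
        -- (1) the maximal inequality
        MaximalBound φ σ T ρ C G ∧
        -- (2) convergence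
        (∀ᵐ t : ℝ, Converges (evolved φ t G)) ∧
        -- (3) the limit
        (MemLp G 2 volume → ∀ᵐ t : ℝ, ConvergesToInverse (evolved φ t G)) := by
  obtain ⟨m, rfl⟩ : ∃ m, n = m + 1 := ⟨n - 1, by omega⟩
  have hc' : 0 < c / 2 ^ ε := by positivity
  refine ⟨(U37.Sch.Cc m ρ T (c / 2 ^ ε) ε σ).toNNReal, fun φ hφm hφg G hG => ?_⟩
  unfold MaximalBound Converges ConvergesToInverse IsInverse
  rw [ENNReal.coe_toNNReal (U37.Sch.Cc_ne_top m ρ T _ hε hσε)]
  have hφ : Measurable fun ξ : E (m + 1) => φ ‖ξ‖ := hφm.comp measurable_norm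
  have hs : U37.Sch.Slope (c / 2 ^ ε) ε φ := by
    intro a b ha hab
    refine le_trans ?_ (hφg a b ha hab)
    have h1 : 0 ≤ b - a := by linarith
    refine mul_le_mul_of_nonneg_right ?_ h1
    have h2 : (1 + a) ^ ε ≤ 2 ^ ε * a ^ ε := by
      rw [← Real.mul_rpow (by norm_num) (by linarith)]
      exact Real.rpow_le_rpow (by linarith) (by linarith) hε.le
    calc c / 2 ^ ε * (1 + a) ^ ε ≤ c / 2 ^ ε * (2 ^ ε * a ^ ε) :=
          mul_le_mul_of_nonneg_left h2 hc'.le
      _ = c * a ^ ε := by field_simp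
  have hwpos : ∀ ξ : E (m + 1), 0 < (1 + ‖ξ‖) ^ (-σ) := fun ξ => by
    have := norm_nonneg ξ
    positivity
  -- a measurable version of `G`
  have hGs : AEStronglyMeasurable G volume := by
    have h1 : Measurable fun ξ : E (m + 1) => (((1 + ‖ξ‖) ^ σ : ℝ) : ℂ) :=
      Complex.measurable_ofReal.comp ((measurable_norm.const_add 1).pow_const _)
    refine (h1.aestronglyMeasurable.mul hG.aestronglyMeasurable).congr
      (Eventually.of_forall fun ξ => ?_)
    have h2 := norm_nonneg ξ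
    have h3 : (1 + ‖ξ‖) ^ σ * (1 + ‖ξ‖) ^ (-σ) = 1 := by
      rw [← Real.rpow_add (by positivity)]; simp
    simp only [Pi.mul_apply, weighted]
    rw [← mul_assoc, ← Complex.ofReal_mul, h3, Complex.ofReal_one, one_mul]
  obtain ⟨G', hG'm, hGG'⟩ : ∃ G' : E (m + 1) → ℂ, Measurable G' ∧ G =ᵐ[volume] G' :=
    ⟨hGs.mk G, hGs.stronglyMeasurable_mk.measurable, hGs.ae_eq_mk⟩
  have hSS : ∀ (t R : ℝ) (x : E (m + 1)), S (evolved φ t G) R x = U37.Sch.pth φ G' (t, x) R := by
    intro t R x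
    refine integral_congr_ae (ae_restrict_of_ae ?_)
    filter_upwards [hGG'] with ξ hξ
    simp only [evolved, U37.Sch.evo, U37.Sch.e, Helper93.Sph.ek, hξ]
  have hw : ∫⁻ ξ, ENNReal.ofReal (U37.Sch.wt σ ξ) * ‖G' ξ‖ₑ ^ 2 =
      ∫⁻ ξ, ‖weighted σ G ξ‖ₑ ^ 2 := by
    refine lintegral_congr_ae ?_
    filter_upwards [hGG'] with ξ hξ
    rw [weighted, enorm_mul, mul_pow, hξ]
    congr 1
    rw [← ofReal_norm, Complex.norm_real, Real.norm_of_nonneg (hwpos ξ).le,
      ← ENNReal.ofReal_pow (hwpos ξ).le, U37.Sch.wt, ← Real.rpow_natCast,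
      ← Real.rpow_mul (by have := norm_nonneg ξ; positivity)]
    congr 2
    push_cast; ring
  have hfin : ∫⁻ ξ, ENNReal.ofReal (U37.Sch.wt σ ξ) * ‖G' ξ‖ₑ ^ 2 ≠ ⊤ := by
    rw [hw]; exact Helper93.Sph.sq_fin hG
  have htr := U37.Sch.tr_memLp hσ hG'm hfin
  have hconv : ∀ᵐ t : ℝ, ∀ᵐ x : E (m + 1), ∃ L : ℂ,
      Tendsto (fun R : ℝ => S (evolved φ t G) R x) atTop (𝓝 L) := by
    filter_upwards [U37.Sch.ae_conv hc' hε hσ hσε hφ hs hG'm hfin] with t ht
    filter_upwards [ht] with x ⟨L, hL⟩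
    refine ⟨L, ?_⟩
    simp_rw [hSS]
    exact hL
  refine ⟨fun x₀ => ?_, hconv, fun hG2 => ?_⟩
  · rw [← hw]
    refine le_trans ?_ (U37.Sch.MJ_int hρ hT hc' hε hσ hσε hφ hs hG'm htr x₀)
    rw [U37.Sch.mu, lintegral_prod _
      ((U37.Sch.MJ_meas (U37.Sch.th ε σ) hφ hG'm htr).pow_const 2).aemeasurable]
    refine lintegral_mono fun t => lintegral_mono fun x => ?_
    refine pow_le_pow_left₀ zero_le (iSup_le fun R => ?_) 2
    rw [hSS]
    exact U37.Sch.MJ_bound _ hφ hG'm htr (t, x) R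
  · have hG'2 : MemLp G' 2 volume := (memLp_congr_ae hGG').1 hG2
    filter_upwards [hconv] with t ht
    have hF : MemLp (evolved φ t G) 2 volume := by
      refine (memLp_congr_ae ?_).2 (U37.Sch.evo_memLp hφ t hG'm hG'2)
      filter_upwards [hGG'] with ξ hξ
      simp only [evolved, U37.Sch.evo, U37.Sch.e, hξ]
    exact U37.Sch.limit_L2 hF ht

end Pool.Agent.Results.MP_ee701d_an.SchrodingerEvolutions
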