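import Mathlib
import Pool.Agent.U556.CL9

/-!
# The maximal ball partial sum operator on the scale of homogeneous Sobolev spaces

For `n ≥ 1` and `0 ≤ s < n/2` let `q(s) = 2n/(n - 2s)` be the exponent of the Sobolev embedding and
`N(s)` the best constant in `‖S^* f‖_{q(s)} ≤ N(s) ‖f‖_{Ḣ^s}` for all Schwartz functions `f`. So Q1
asks whether `N(0)` is finite. We prove that `N(s)` is finite, with an explicit bound, for all `s > 0`,
that `N(s)` tends to `N(0)` (finite or not) as `s` tends to `0`, and that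
`N(s) ≤ n/(n - 2s) |B|^(s/n) N(0)^(1 - 2s/n)`, where `|B|` is the volume of the unit ball. In the same
way, for each ball `D` the best constant `N_D(s)` in `‖S^* f‖_{L²(D)} ≤ N_D(s) ‖f‖_{Ḣ^s}` is finite
for `s > 0` and tends to `N(0)`.

Proof. The Sobolev inequality for the functions with spectrum in a shell is proved by the level set
argument of Chemin and Xu; the maximal lemma of Christ and Kiselev, for the masses `∫ |ξ|^(2s) |f^|²`
of the shells, gives the maximal inequality. If `g` has Fourier transform `|ξ|^s f^`, then `S_R f` is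
the integral of `t^(-s)` against the path `t ↦ S_t g`, and `|S_t g| ≤ min(S^* g, (|B| t^n)^(1/2) ‖g‖₂)`;
this gives a pointwise inequality between `S^* f` and `S^* g`, and with it the bound of `N(s)` by `N(0)`.
The other half of the limit is Fatou's lemma. For `N_D` Hölder's inequality and dilations are used.
-/

set_option autoImplicit false

open MeasureTheory Metric Filter Topology Set
open scoped ENNReal NNReal RealInnerProductSpace FourierTransform SchwartzMap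

namespace Pool.Agent.Results.MP_ee701d_an.SobolevScale

/-- Euclidean space -/
abbrev E (n : ℕ) := EuclideanSpace ℝ (Fin n)

/-- the ball partial sum `S_R f(x)` -/
noncomputable def S {n : ℕ} (f : 𝓢(E n, ℂ)) (R : ℝ) (x : E n) : ℂ :=
  ∫ ξ in closedBall (0 : E n) R,
    Complex.exp (2 * Real.pi * Complex.I * ((⟪x, ξ⟫ : ℝ) : ℂ)) * 𝓕 f ξ

/-- the maximal function `S^* f(x)` -/
noncomputable def Smax {n : ℕ} (f : 𝓢(E n, ℂ)) (x : E n) : ℝ≥0∞ := ⨆ R ∈ Ioi (0 : ℝ), ‖S f R x‖ₑ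

/-- the norm in `L^q(ℝⁿ)` of a function with values in `[0, ∞]` -/
noncomputable def lqNorm {n : ℕ} (q : ℝ) (g : E n → ℝ≥0∞) : ℝ≥0∞ := (∫⁻ x, g x ^ q) ^ (1 / q)

/-- the norm of `f` in the homogeneous Sobolev space of order `s` -/
noncomputable def sobolevNorm {n : ℕ} (s : ℝ) (f : 𝓢(E n, ℂ)) : ℝ≥0∞ :=
  (∫⁻ ξ, ENNReal.ofReal (‖ξ‖ ^ (2 * s)) * ‖𝓕 f ξ‖ₑ ^ 2) ^ (1 / 2 : ℝ)

/-- the exponent of the Sobolev embedding -/
noncomputable def exponent (n : ℕ) (s : ℝ) : ℝ := 2 * n / (n - 2 * s)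

/-- the norm of `S^*` from the homogeneous Sobolev space of order `s` to `L^q`, `q = 2n/(n - 2s)` -/
noncomputable def N (n : ℕ) (s : ℝ) : ℝ≥0∞ :=
  ⨆ f : 𝓢(E n, ℂ), lqNorm (exponent n s) (Smax f) / sobolevNorm s f

/-- the norm of `S^*` from the homogeneous Sobolev space of order `s` to `L²` of the ball of radius
`ρ` with centre `0` -/
noncomputable def NLocal (n : ℕ) (ρ s : ℝ) : ℝ≥0∞ :=
  ⨆ f : 𝓢(E n, ℂ), (∫⁻ x in closedBall (0 : E n) ρ, Smax f x ^ 2) ^ (1 / 2 : ℝ) / sobolevNorm s f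

/-- the volume of the unit ball -/
noncomputable def ballVolume (n : ℕ) : ℝ := (volume : Measure (E n)).real (ball 0 1)

/-- the estimate of Q1 in dimension `n` -/
def Q1 (n : ℕ) : Prop := ∃ C : ℝ≥0, ∀ f : 𝓢(E n, ℂ),
  (∫⁻ x, Smax f x ^ 2) ^ (1 / 2 : ℝ) ≤ C * (∫⁻ x, ‖f x‖ₑ ^ 2) ^ (1 / 2 : ℝ)

open Pool.Agent.U556.CL Pool.Agent.U588.Sph

theorem expo_eq (m : ℕ) (s : ℝ) : exponent (m + 1) s = qe m s := by
  unfold exponent qe
  push_cast
  rfl

theorem N_eq (m : ℕ) (s : ℝ) : N (m + 1) s = Nc m s := by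
  unfold N Nc mq
  rw [expo_eq]
  rfl

theorem lq_eq {m : ℕ} (s : ℝ) (f : 𝓢(E (m + 1), ℂ)) :
    lqNorm (exponent (m + 1) s) (Smax f) = mq s f := by
  unfold mq
  rw [expo_eq]
  rfl

theorem best {m : ℕ} {s : ℝ} (hs0 : 0 ≤ s) (hs : 2 * s < (m : ℝ) + 1) (K : ℝ≥0∞) :
    Nc m s ≤ K ↔ ∀ f : 𝓢(E (m + 1), ℂ), mq s f ≤ K * sb s f := by
  constructor
  · intro h f
    have hq : 0 < qe m s := by
      unfold qe
      have : 0 < (m : ℝ) + 1 - 2 * s := by linarith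
      positivity
    exact (spec hq (sb_fin hs0 f)).trans (mul_le_mul' h le_rfl)
  · exact fun h => Nc_le h

theorem Q1_iff (m : ℕ) : Q1 (m + 1) ↔ Nc m 0 < ∞ := by
  have hd : 2 * (0 : ℝ) < (m : ℝ) + 1 := by
    have : (0 : ℝ) ≤ m := Nat.cast_nonneg m
    linarith
  have h1 : ∀ f : 𝓢(E (m + 1), ℂ), (∫⁻ x, Smax f x ^ 2) ^ (1 / 2 : ℝ) = mq 0 f := by
    intro f
    have h := mq_zero_sq f
    have e : (∫⁻ x, Smax f x ^ 2) = mq 0 f ^ 2 := by rw [h]; rfl
    rw [e, ← ENNReal.rpow_natCast, ← ENNReal.rpow_mul]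
    norm_num
  have h2 : ∀ f : 𝓢(E (m + 1), ℂ), (∫⁻ x, ‖f x‖ₑ ^ 2) ^ (1 / 2 : ℝ) = sb 0 f := by
    intro f
    rw [← sb_zero f, ← ENNReal.rpow_natCast, ← ENNReal.rpow_mul]
    norm_num
  unfold Q1
  simp_rw [h1, h2]
  constructor
  · rintro ⟨C, hC⟩
    exact ((best le_rfl hd (C : ℝ≥0∞)).2 hC).trans_lt ENNReal.coe_lt_top
  · intro h
    refine ⟨(Nc m 0).toNNReal, ?_⟩
    rw [ENNReal.coe_toNNReal h.ne]
    exact (best le_rfl hd (Nc m 0)).1 le_rfl

/-- **The scale of Sobolev spaces.** Let `n ≥ 1`. For `0 ≤ s < n/2` the constant `N(s)` is the best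
one in `‖S^* f‖_q ≤ K ‖f‖_{Ḣ^s}`, with `q = 2n/(n - 2s)`. It is finite for `s > 0`, with the bound
below; `N(s)` tends to `N(0)` as `s` decreases to `0`, and `N(s)` is bounded by a power of `N(0)`.
The estimate of Q1 holds if and only if `N(0)` is finite, if and only if `N(s)` is bounded by one
constant for a sequence of `s > 0` that tends to `0`. For each ball with centre `0` the constants of
the local inequality `‖S^* f‖_{L²(D)} ≤ K ‖f‖_{Ḣ^s}` are finite for `s > 0` and tend to `N(0)`. -/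
theorem result (n : ℕ) (hn : 1 ≤ n) :
    (∀ s : ℝ, 0 ≤ s → 2 * s < n → ∀ K : ℝ≥0∞, N n s ≤ K ↔
      ∀ f : 𝓢(E n, ℂ), lqNorm (exponent n s) (Smax f) ≤ K * sobolevNorm s f) ∧
    (∀ s : ℝ, 0 < s → 2 * s < n → N n s ≤ ENNReal.ofReal ((1 - 2 ^ (-(s / n)))⁻¹ *
      ((2 * n / s) ^ ((n - 2 * s) / (2 * n)) *
        (4 * (n * ballVolume n / (n - 2 * s))) ^ (s / n)))) ∧
    (∀ s : ℝ, 0 < s → 2 * s < n → N n s ≤
      ENNReal.ofReal (n / (n - 2 * s) * ballVolume n ^ (s / n)) * N n 0 ^ (1 - 2 * s / n)) ∧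
    Tendsto (N n) (𝓝[>] 0) (𝓝 (N n 0)) ∧
    (Q1 n ↔ N n 0 < ∞) ∧
    (Q1 n ↔ ∃ C : ℝ≥0, ∃ᶠ s in 𝓝[>] (0 : ℝ), N n s ≤ C) ∧
    (∀ ρ : ℝ, 0 < ρ →
      (∀ s : ℝ, 0 < s → 2 * s < n →
        NLocal n ρ s ≤ volume (closedBall (0 : E n) ρ) ^ (s / n) * N n s) ∧
      Tendsto (NLocal n ρ) (𝓝[>] 0) (𝓝 (N n 0))) := by
  obtain ⟨m, rfl⟩ : ∃ m, n = m + 1 := ⟨n - 1, by omega⟩
  have hc : ((m + 1 : ℕ) : ℝ) = (m : ℝ) + 1 := by push_cast; rfl
  have hfun : N (m + 1) = Nc m := funext fun s => N_eq m s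
  rw [hfun, hc]
  refine ⟨fun s hs0 hs K => ?_, fun s hs0 hs => ?_, fun s hs0 hs => ?_, part3 m, Q1_iff m, ?_,
    fun ρ hρ => ⟨fun s hs0 hs => part4 hs0 hs, part5 m hρ⟩⟩
  · have h := best hs0 hs K
    simp_rw [← lq_eq] at h
    exact h
  · have h := part1 hs0 hs
    unfold Kc As cn at h
    rw [show 1 / qe m s = ((m : ℝ) + 1 - 2 * s) / (2 * ((m : ℝ) + 1)) by
      unfold qe; rw [one_div_div]] at h
    exact h
  · exact part2 hs0 hs
  · rw [Q1_iff]
    constructor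
    · intro h
      obtain ⟨C, hC1, hC2⟩ := exists_between h
      refine ⟨C.toNNReal, Eventually.frequently ?_⟩
      rw [ENNReal.coe_toNNReal hC2.ne]
      filter_upwards [(part3 m).eventually (Iio_mem_nhds hC1)] with s hs
      exact le_of_lt hs
    · rintro ⟨C, hC⟩
      refine lt_of_le_of_lt ?_ (ENNReal.coe_lt_top (r := C))
      by_contra hcon
      rw [not_le] at hcon
      obtain ⟨s, hs1, hs2⟩ := (hC.and_eventually ((part3 m).eventually (Ioi_mem_nhds hcon))).exists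
      exact absurd hs1 (not_le.2 hs2)

end Pool.Agent.Results.MP_ee701d_an.SobolevScale
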