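import Mathlib
import Pool.Agent.U556.CKB

/-!
# Ball partial sums of functions whose spectrum has sparse sumsets

Let `Λ` be a measurable set in `ℝⁿ` such that, for the part `Λ'` of `Λ` in each dyadic shell and for
each `z`, the set `Λ' ∩ (z - Λ')` has measure at most `K`. Then the maximal ball partial sum operator
is bounded from the space of the `f ∈ L²(ℝⁿ)` with spectrum in `Λ` to `L⁴(ℝⁿ)`, with norm at most
`2 ^ (29 / 4) K ^ (1 / 4)`, and `S_R f(x)` converges to `f(x)` for almost every `x` as `R → ∞`. The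
same maximal bound, and convergence, hold for every increasing sequence of sets of frequencies.

Examples: sets with bounded measure in each dyadic shell; unions of balls of radius `r` whose
centres have few representations of sums; neighbourhoods of the parabola and of the paraboloid.

Proof. Convolution and Plancherel's theorem give the `L²`-`L⁴` extension inequality for each shell.
The maximal inequality of Christ and Kiselev turns an extension inequality into a maximal inequality.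
With it, the extension inequality is carried from the shells to their unions by induction: if `f_k`
is the part of `f` in the `k`-th shell and `T_k` the sum of the `f_j` with `j < k`, then the products
`f_k T_{k-1}` are almost orthogonal.
-/

set_option autoImplicit false

open MeasureTheory Metric Filter Topology
open scoped ENNReal RealInnerProductSpace

namespace Pool.Agent.Results.MP_ee701d_an.SparseSumsets

/-- Euclidean space -/
abbrev E (n : ℕ) := EuclideanSpace ℝ (Fin n)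

/-- the partial Fourier integral of `f` over the set `D` of frequencies, where `G` is the Fourier
transform of `f` -/
noncomputable def P {n : ℕ} (G : E n → ℂ) (D : Set (E n)) (x : E n) : ℂ :=
  ∫ ξ in D, Complex.exp (2 * Real.pi * Complex.I * ((⟪x, ξ⟫ : ℝ) : ℂ)) * G ξ

/-- the ball partial sum `S_R f(x)` -/
noncomputable def S {n : ℕ} (G : E n → ℂ) (R : ℝ) (x : E n) : ℂ := P G (closedBall 0 R) x

/-- the maximal function `S^* f(x)` -/
noncomputable def Smax {n : ℕ} (G : E n → ℂ) (x : E n) : ℝ≥0∞ := ⨆ R : ℝ, ‖S G R x‖ₑ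

/-- `G` is the Fourier transform of a function in `L²` with spectrum in `Λ` -/
def HasSpectrumIn {n : ℕ} (Λ : Set (E n)) (G : E n → ℂ) : Prop :=
  MemLp G 2 volume ∧ ∀ᵐ ξ : E n, ξ ∉ Λ → G ξ = 0

/-- the square of the `L²` norm of `f` -/
noncomputable def energy {n : ℕ} (G : E n → ℂ) : ℝ≥0∞ := ∫⁻ ξ, ‖G ξ‖ₑ ^ 2

/-- `u` is the square integrable function with Fourier transform `G`: the limit of the ball partial
sums in `L²(ℝⁿ)` -/
def IsInverse {n : ℕ} (G u : E n → ℂ) : Prop :=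
  MemLp u 2 volume ∧ Tendsto (fun R : ℝ => ∫⁻ x, ‖S G R x - u x‖ₑ ^ 2) atTop (𝓝 0)

/-- the ball partial sums of the square integrable function with Fourier transform `G` converge
to this function almost everywhere -/
def ConvergesToInverse {n : ℕ} (G : E n → ℂ) : Prop :=
  ∃ u : E n → ℂ, IsInverse G u ∧ ∀ᵐ x : E n, Tendsto (fun R : ℝ => S G R x) atTop (𝓝 (u x))

/-- the `k`-th dyadic shell: `|ξ| < ρ` for `k = 0`, and `2 ^ (k - 1) ρ ≤ |ξ| < 2 ^ k ρ` for `k ≥ 1` -/
def Shell (n : ℕ) (ρ : ℝ) (k : ℕ) : Set (E n) :=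
  {ξ | ‖ξ‖ < ρ * 2 ^ k ∧ (1 ≤ k → ρ * 2 ^ (k - 1) ≤ ‖ξ‖)}

/-- for each `z` the set of the `ξ ∈ Λ` with `z - ξ ∈ Λ` has measure at most `K` -/
def SumsBounded {n : ℕ} (Λ : Set (E n)) (K : ℝ≥0∞) : Prop :=
  ∀ z : E n, volume {ξ | ξ ∈ Λ ∧ z - ξ ∈ Λ} ≤ K

/-- the condition on the spectrum: the parts of `Λ` in the dyadic shells satisfy `SumsBounded` -/
def Sparse {n : ℕ} (Λ : Set (E n)) (K : ℝ≥0∞) : Prop :=
  ∃ ρ : ℝ, 0 < ρ ∧ ∀ k : ℕ, SumsBounded (Λ ∩ Shell n ρ k) K

/-- the conclusion: for every `f ∈ L²` with spectrum in `Λ`, the maximal bound from `L²` to `L⁴`, its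
local form in `L²`, convergence to `f` almost everywhere, and the maximal bound and convergence for
every increasing sequence of measurable sets of frequencies of finite measure -/
def Good {n : ℕ} (Λ : Set (E n)) (K : ℝ≥0∞) : Prop :=
  ∀ G : E n → ℂ, HasSpectrumIn Λ G →
    (∫⁻ x, Smax G x ^ 4 ≤ 2 ^ 29 * K * energy G ^ 2) ∧
    (∀ B : Set (E n), (∫⁻ x in B, Smax G x ^ 2) ^ 2 ≤ volume B * (2 ^ 29 * K * energy G ^ 2)) ∧
    ConvergesToInverse G ∧
    ∀ D : ℕ → Set (E n), (∀ j, MeasurableSet (D j)) → (∀ j, volume (D j) ≠ ∞) → Monotone D →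
      (∫⁻ x, (⨆ j, ‖P G (D j) x‖ₑ) ^ 4 ≤ 2 ^ 29 * K * energy G ^ 2) ∧
      ∀ᵐ x : E n, ∃ L : ℂ, Tendsto (fun j => P G (D j) x) atTop (𝓝 L)

lemma shell_eq (n : ℕ) (ρ : ℝ) (k : ℕ) : Shell n ρ k = U556.CK.sh n ρ k := by
  ext ξ
  cases k with
  | zero => simp [Shell, U556.CK.sh, U556.CK.dy]
  | succ k => simp [Shell, U556.CK.sh, U556.CK.dy]

theorem main {n : ℕ} (hn : 1 ≤ n) {Λ : Set (E n)} (hΛ : MeasurableSet Λ) {K : ℝ≥0∞} (hK : K ≠ ∞)
    (h : Sparse Λ K) : Good Λ K := by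
  obtain ⟨m, rfl⟩ : ∃ m, n = m + 1 := ⟨n - 1, by omega⟩
  obtain ⟨ρ, hρ, hs⟩ := h
  have hE : U556.CK.E4 Λ (2 ^ 18 * K) := U556.CK.e4_shells hΛ hρ hK fun k => by
    rw [← shell_eq]
    exact hs k
  intro G ⟨hG, h0⟩
  obtain ⟨G', hG'm, hG', h0', hGG⟩ := U556.CK.red hΛ hG h0
  have hen : energy G = ∫⁻ ξ, ‖G' ξ‖ₑ ^ 2 := U556.CK.e2_congr hGG
  have hS : ∀ R x, S G R x = Helper93.Sph.ps G' R x := fun R x => U556.CK.ps_congr hGG R x
  have h4 : ∫⁻ x, Smax G x ^ 4 ≤ 2 ^ 29 * K * energy G ^ 2 := by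
    rw [hen]
    refine le_trans (le_of_eq (lintegral_congr fun x => ?_))
      ((U556.CK.max_four hΛ hE hG' h0').trans (U556.CK.const_le _ _))
    simp only [Smax, hS]
  have hSm : Measurable (Smax G) := by
    have h1 : ∀ x, Smax G x = ((⨆ R : ℝ, ‖Helper93.Sph.ps G' R x‖ₑ) ^ 2) ^ (1 / 2 : ℝ) := by
      intro x
      rw [← ENNReal.rpow_natCast, ← ENNReal.rpow_mul]
      norm_num
      simp only [Smax, hS]
    have h2 : Smax G = fun x => ((⨆ R : ℝ, ‖Helper93.Sph.ps G' R x‖ₑ) ^ 2) ^ (1 / 2 : ℝ) :=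
      funext h1
    rw [h2]
    exact (U588.Sph.sup_meas hG').pow_const _
  have hconv : ∀ᵐ x : E (m + 1), ∃ L : ℂ, Tendsto (fun R : ℝ => S G R x) atTop (𝓝 L) := by
    have h1 := U556.CK.conv_all (q := 4) (ν := volume) (by norm_num)
      (ENNReal.rpow_ne_top_of_nonneg (by norm_num) (by finiteness))
      (U556.CK.ext_of_e4 hΛ hE) hG' h0'
    filter_upwards [h1] with x ⟨L, hL⟩
    exact ⟨L, by simp_rw [hS]; exact hL⟩
  refine ⟨h4, fun B => ?_, U37.Sch.limit_L2 hG hconv, fun D hD hv hm => ⟨?_, ?_⟩⟩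
  · refine (U556.CK.cs_loc hSm B).trans ?_
    gcongr
  · rw [hen]
    refine le_trans (le_of_eq (lintegral_congr fun x => ?_))
      ((U556.CK.seq_max hG'm hG' hE h0' hD hv hm).trans (U556.CK.const_le _ _))
    congr 1
    refine iSup_congr fun j => ?_
    rw [← U556.CK.pD_eq G' (hD j), ← U556.CK.pD_congr hGG]
    rfl
  · filter_upwards [U556.CK.seq_conv hG'm hG' (by finiteness) hE h0' hD hv hm] with x ⟨L, hL⟩
    refine ⟨L, hL.congr fun j => ?_⟩
    rw [← U556.CK.pD_eq G' (hD j), ← U556.CK.pD_congr hGG]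
    rfl

theorem result :
    -- the theorem
    (∀ (n : ℕ) (Λ : Set (E n)) (K : ℝ≥0∞), 1 ≤ n → MeasurableSet Λ → K ≠ ∞ → Sparse Λ K →
      Good Λ K) ∧
    -- the condition holds if the measure of the part of `Λ` in each dyadic shell is at most `K`
    (∀ (n : ℕ) (Λ : Set (E n)) (K : ℝ≥0∞) (ρ : ℝ), 0 < ρ →
      (∀ k : ℕ, volume (Λ ∩ Shell n ρ k) ≤ K) → Sparse Λ K) ∧
    -- unions of balls of radius `r`
    (∀ (n : ℕ) (A : Set (E n)) (r ρ : ℝ) (g : ℕ), 1 ≤ n → A.Countable → 0 < ρ →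
      (∀ (k : ℕ) (z : E n), {p : E n × E n | p.1 ∈ A ∧ p.2 ∈ A ∧
        (closedBall p.1 r ∩ Shell n ρ k).Nonempty ∧ (closedBall p.2 r ∩ Shell n ρ k).Nonempty ∧
        ‖p.1 + p.2 - z‖ ≤ 2 * r}.encard ≤ g) →
      Good (⋃ a ∈ A, closedBall a r) (g * volume (closedBall (0 : E n) r))) ∧
    -- neighbourhoods of the parabola and of the paraboloid
    (∀ δ : ℝ, 0 ≤ δ → Good {ξ : E 2 | |ξ 1 - ξ 0 ^ 2| ≤ δ} (ENNReal.ofReal (4 * δ * √(2 * δ)))) ∧
    (∀ δ : ℝ, 0 ≤ δ →
      Good {ξ : E 3 | |ξ 2 - (ξ 0 ^ 2 + ξ 1 ^ 2)| ≤ δ} (ENNReal.ofReal (4 * Real.pi * δ ^ 2))) := by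
  refine ⟨fun n Λ K hn hΛ hK h => main hn hΛ hK h, fun n Λ K ρ hρ h => ⟨ρ, hρ, fun k =>
    U556.CK.sum_vol (h k)⟩, fun n A r ρ g hn hA hρ h => ?_, fun δ hδ => ?_, fun δ hδ => ?_⟩
  · refine main hn (U556.CK.fat_meas hA r)
      (ENNReal.mul_ne_top (ENNReal.natCast_ne_top g) measure_closedBall_lt_top.ne)
      ⟨ρ, hρ, fun k => ?_⟩
    rw [shell_eq]
    refine U556.CK.fat_shell k fun z => le_trans (le_of_eq ?_) (h k z)
    congr 1
    ext p
    simp only [U556.CK.near, Set.mem_ofPred_eq, shell_eq]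
    tauto
  · have h1 := U556.CK.par_sum (1 : Fin 2) (fun a => U556.CK.ann_one (a := a) hδ)
    have h2 := U556.CK.par_meas (1 : Fin 2) δ
    rw [U556.CK.par_two] at h1 h2
    refine main (by norm_num) h2 ENNReal.ofReal_ne_top ⟨1, one_pos, fun k =>
      U556.CK.sum_mono Set.inter_subset_left ?_⟩
    rw [← ENNReal.ofReal_mul (by positivity)] at h1
    convert h1 using 2
    ring
  · have h1 := U556.CK.par_sum (2 : Fin 3) (fun a => U556.CK.ann_two (a := a) hδ)
    have h2 := U556.CK.par_meas (2 : Fin 3) δ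
    rw [U556.CK.par_three] at h1 h2
    refine main (by norm_num) h2 ENNReal.ofReal_ne_top ⟨1, one_pos, fun k =>
      U556.CK.sum_mono Set.inter_subset_left ?_⟩
    rw [← ENNReal.ofReal_mul (by positivity)] at h1
    convert h1 using 2
    ring

end Pool.Agent.Results.MP_ee701d_an.SparseSumsets
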