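import Mathlib
import Pool.Agent.U588.SphC

/-!
# Maximal ball partial sums: a trace inequality for arbitrary radial weights, thin spectra

Let `f ∈ L²(ℝⁿ)`, let `G` be its Fourier transform, `S_R f` the ball partial sums. For every
measurable function `v ≥ 0` of the radius and every ball `B` of radius `ρ`

`∫_B (sup_R |S_R f|)² ≤ 10 n^(3/2) ρ · ∫_0^∞ v(r) dr · ∫ |G(ξ)|² / v(|ξ|) dξ`

(if the last integral is finite), and if both integrals are finite then `S_R f` converges almost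
everywhere. In particular (`v = 1_A`) the local form of the maximal inequality of Q1 and the almost
everywhere convergence hold for all `f ∈ L²` whose Fourier transform is supported on the radii of a
measurable set `A` of finite length, no matter how `A` is spread over the half line, and with a
constant linear in the length of `A`; no smoothness of `f` is assumed.

The proof extends the estimate for one thin shell (Agmon-Hörmander, in the form of
`Pool/Agent/Helper93/Sph`) to radial weights: the Gaussian means of the surface measures of all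
spheres are bounded, hence the image of the Gaussian under the norm is at most a constant times
length, also on measurable sets. Then Cauchy-Schwarz with weights in the radius.
-/

set_option autoImplicit false

open MeasureTheory Metric Filter Topology Set
open scoped ENNReal NNReal RealInnerProductSpace

namespace Pool.Agent.Results.MP_ee701d_an.WeightedSpectrum

/-- Euclidean space -/
abbrev E (n : ℕ) := EuclideanSpace ℝ (Fin n)

/-- the ball partial sum `S_R f(x)` of the function `f` with Fourier transform `G` -/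
noncomputable def S {n : ℕ} (G : E n → ℂ) (R : ℝ) (x : E n) : ℂ :=
  ∫ ξ in closedBall (0 : E n) R, Complex.exp (2 * Real.pi * Complex.I * ((⟪x, ξ⟫ : ℝ) : ℂ)) * G ξ

/-- the local bound `∫_B (sup_R |S_R f|)² ≤ 10 n^(3/2) ρ K` on all balls `B` of radius `ρ` -/
def LocalBound {n : ℕ} (G : E n → ℂ) (K : ℝ≥0∞) : Prop :=
  ∀ (x₀ : E n) (ρ : ℝ), 0 < ρ → ∫⁻ x in closedBall x₀ ρ, (⨆ R : ℝ, ‖S G R x‖ₑ) ^ 2 ≤
    ENNReal.ofReal (10 * n * √n * ρ) * K

/-- `S_R f(x)` converges as `R → ∞` for almost all `x` -/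
def ConvergesAE {n : ℕ} (G : E n → ℂ) : Prop :=
  ∀ᵐ x : E n, ∃ L : ℂ, Tendsto (fun R : ℝ => S G R x) atTop (𝓝 L)

theorem S_eq {n : ℕ} (G : E n → ℂ) (R : ℝ) (x : E n) :
    S G R x = Pool.Agent.Helper93.Sph.ps G R x := rfl

theorem weight_part {n : ℕ} (hn : 1 ≤ n) (G : E n → ℂ) (hG : MemLp G 2 volume) (v : ℝ → ℝ≥0)
    (hv : Measurable v) (hB : ∫⁻ ξ, ‖G ξ‖ₑ ^ 2 / v ‖ξ‖ ≠ ∞) :
    LocalBound G ((∫⁻ r in Ici 0, (v r : ℝ≥0∞)) * ∫⁻ ξ, ‖G ξ‖ₑ ^ 2 / v ‖ξ‖) ∧
      (∫⁻ r in Ici 0, (v r : ℝ≥0∞) ≠ ∞ → ConvergesAE G) := by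
  obtain ⟨m, rfl⟩ : ∃ m, n = m + 1 := ⟨n - 1, by omega⟩
  refine ⟨fun x₀ ρ hρ => ?_, fun hA => Pool.Agent.U588.Sph.conv_v hG hv hA hB⟩
  have h1 := Pool.Agent.U588.Sph.max_v hG hv hB x₀ hρ
  rw [← mul_assoc]
  push_cast
  exact h1

/-- (1) arbitrary radial weights; (2) spectra on a measurable set of radii. -/
theorem result {n : ℕ} (hn : 1 ≤ n) (G : E n → ℂ) (hG : MemLp G 2 volume) :
    (∀ v : ℝ → ℝ≥0, Measurable v → ∫⁻ ξ, ‖G ξ‖ₑ ^ 2 / v ‖ξ‖ ≠ ∞ →
      LocalBound G ((∫⁻ r in Ici 0, (v r : ℝ≥0∞)) * ∫⁻ ξ, ‖G ξ‖ₑ ^ 2 / v ‖ξ‖) ∧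
        (∫⁻ r in Ici 0, (v r : ℝ≥0∞) ≠ ∞ → ConvergesAE G)) ∧
    (∀ A : Set ℝ, MeasurableSet A → (∀ᵐ ξ : E n, ‖ξ‖ ∉ A → G ξ = 0) →
      LocalBound G (volume (A ∩ Ici 0) * ∫⁻ ξ, ‖G ξ‖ₑ ^ 2) ∧
        (volume (A ∩ Ici 0) ≠ ∞ → ConvergesAE G)) := by
  refine ⟨fun v hv hB => weight_part hn G hG v hv hB, fun A hA hGA => ?_⟩
  set v : ℝ → ℝ≥0 := A.indicator 1 with hv
  have hvm : Measurable v := measurable_one.indicator hA
  have e1 : ∫⁻ ξ, ‖G ξ‖ₑ ^ 2 / v ‖ξ‖ = ∫⁻ ξ, ‖G ξ‖ₑ ^ 2 := by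
    refine lintegral_congr_ae ?_
    filter_upwards [hGA] with ξ hξ
    by_cases h : ‖ξ‖ ∈ A
    · rw [hv, indicator_of_mem h]; simp
    · rw [hξ h]; simp
  have e2 : ∫⁻ r in Ici 0, (v r : ℝ≥0∞) = volume (A ∩ Ici 0) := by
    have h1 : (fun r => (v r : ℝ≥0∞)) = A.indicator 1 := by
      funext r
      by_cases h : r ∈ A
      · rw [hv, indicator_of_mem h, indicator_of_mem h]; simp
      · rw [hv, indicator_of_notMem h, indicator_of_notMem h]; simp
    rw [h1, lintegral_indicator_one hA, Measure.restrict_apply hA]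
  have hfin : ∫⁻ ξ, ‖G ξ‖ₑ ^ 2 < ⊤ := by
    have := hG.eLpNorm_lt_top
    rw [eLpNorm_lt_top_iff_lintegral_rpow_enorm_lt_top (by norm_num) (by norm_num)] at this
    simpa using this
  have h := weight_part hn G hG v hvm (by rw [e1]; exact hfin.ne)
  rw [e1, e2] at h
  exact h

end Pool.Agent.Results.MP_ee701d_an.WeightedSpectrum
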